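import Mathlib

set_option autoImplicit false

namespace Pool.Agent.H288R2

open SimpleGraph

variable {V : Type*} [Fintype V] [DecidableEq V] (G : SimpleGraph V) [DecidableRel G.Adj]

/-- In a connected finite graph there is a closed walk using every dart exactly once. -/
theorem exists_dart_tour (hG : G.Connected) :
    ∃ (v : V) (w : G.Walk v v), w.darts.Nodup ∧ ∀ d : G.Dart, d ∈ w.darts := by
  classical
  -- symmetric dart-simple closed walks
  let P : ℕ → Prop := fun n => ∃ (v : V) (w : G.Walk v v), w.darts.Nodup ∧
    (∀ d : G.Dart, d ∈ w.darts → d.symm ∈ w.darts) ∧ w.length = n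
  have hP0 : P 0 := by
    obtain ⟨v⟩ := hG.nonempty
    exact ⟨v, Walk.nil, by simp, by simp, rfl⟩
  have hbound : ∀ n, P n → n ≤ Fintype.card G.Dart := by
    rintro n ⟨v, w, hnd, -, rfl⟩
    rw [← Walk.length_darts]
    exact hnd.length_le_card
  have hmax : ∃ n, P n ∧ ∀ m, P m → m ≤ n := by
    refine ⟨Nat.findGreatest P (Fintype.card G.Dart), ?_, ?_⟩
    · exact Nat.findGreatest_spec (P := P) (Nat.zero_le _) hP0
    · intro m hm
      exact Nat.le_findGreatest (hbound m hm) hm
  obtain ⟨n, ⟨v, w, hnd, hsym, hlen⟩, hmx⟩ := hmax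
  refine ⟨v, w, hnd, ?_⟩
  by_contra hcon
  push Not at hcon
  obtain ⟨d0, hd0⟩ := hcon
  -- there is a missing dart starting in the support
  have hex : ∃ d : G.Dart, d ∉ w.darts ∧ d.fst ∈ w.support := by
    by_contra hno
    push Not at hno
    have hclosed : ∀ u x : V, u ∈ w.support → G.Adj u x → x ∈ w.support := by
      intro u x hu hux
      have hd : (⟨(u, x), hux⟩ : G.Dart) ∈ w.darts := by
        by_contra hn
        exact hno _ hn hu
      exact w.dart_snd_mem_support_of_mem_darts hd
    have hall : ∀ u : V, u ∈ w.support := by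
      intro u
      obtain ⟨p⟩ := hG.preconnected v u
      have : ∀ (a b : V) (q : G.Walk a b), a ∈ w.support → b ∈ w.support := by
        intro a b q
        induction q with
        | nil => exact id
        | cons h _ ih => exact fun ha => ih (hclosed _ _ ha h)
      exact this v u p w.start_mem_support
    exact hno d0 hd0 (hall _)
  obtain ⟨d, hd, hdw⟩ := hex
  have hd' : d.symm ∉ w.darts := fun h => hd (by simpa using hsym _ h)
  set w' := w.rotate d.fst hdw with hw'
  have hperm : w'.darts.Perm w.darts := (w.rotate_darts d.fst hdw).perm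
  let W : G.Walk d.fst d.fst := Walk.cons d.adj (Walk.cons d.symm.adj w')
  have hWd : W.darts = d :: d.symm :: w'.darts := by
    simp only [W, Walk.darts_cons]
    rfl
  have hlen' : W.length = n + 2 := by
    have h1 : w'.length = w.length := by
      rw [← Walk.length_darts, ← Walk.length_darts]
      exact hperm.length_eq
    have h2 : W.length = w'.length + 1 + 1 := rfl
    omega
  have : P (n + 2) := by
    refine ⟨d.fst, W, ?_, ?_, hlen'⟩
    · rw [hWd, List.nodup_cons, List.nodup_cons]
      refine ⟨?_, ?_, hperm.nodup_iff.mpr hnd⟩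
      · rw [List.mem_cons, not_or]
        exact ⟨fun h => d.symm_ne h.symm, fun h => hd (hperm.mem_iff.mp h)⟩
      · exact fun h => hd' (hperm.mem_iff.mp h)
    · intro e he
      rw [hWd] at he ⊢
      simp only [List.mem_cons] at he ⊢
      rcases he with rfl | rfl | he
      · exact Or.inr (Or.inl rfl)
      · exact Or.inl (Dart.symm_symm d)
      · exact Or.inr (Or.inr (hperm.mem_iff.mpr (hsym _ (hperm.mem_iff.mp he))))
  have := hmx _ this
  omega

omit [Fintype V] [DecidableEq V] [DecidableRel G.Adj] in
/-- Sum of a function over the darts of a walk as a sum over indices. -/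
theorem sum_darts_eq {u v : V} (w : G.Walk u v) (g : V → V → ℝ) :
    (w.darts.map fun d => g d.fst d.snd).sum =
      ∑ i ∈ Finset.range w.length, g (w.getVert i) (w.getVert (i + 1)) := by
  induction w with
  | nil => simp
  | cons h p ih =>
    rw [Walk.darts_cons, List.map_cons, List.sum_cons, ih, Walk.length_cons,
      Finset.sum_range_succ']
    simp only [Walk.getVert_cons_succ, Walk.getVert_zero]
    ring

theorem sum_darts_univ (g : V → V → ℝ) :
    ∑ d : G.Dart, g d.fst d.snd = ∑ x, ∑ y ∈ G.neighborFinset x, g x y := by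
  classical
  have h1 : ∀ x : V, ∑ y ∈ G.neighborFinset x, g x y =
      ∑ d ∈ Finset.univ.filter (fun d : G.Dart => d.fst = x), g d.fst d.snd := by
    intro x
    symm
    refine Finset.sum_bij (fun d _ => d.snd) ?_ ?_ ?_ ?_
    · intro d hd
      simp only [Finset.mem_filter, Finset.mem_univ, true_and] at hd
      rw [mem_neighborFinset, ← hd]
      exact d.adj
    · intro d hd e he hde
      simp only [Finset.mem_filter, Finset.mem_univ, true_and] at hd he
      ext
      · rw [hd, he]
      · exact hde
    · intro y hy
      rw [mem_neighborFinset] at hy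
      exact ⟨⟨(x, y), hy⟩, by simp, rfl⟩
    · intro d hd
      simp only [Finset.mem_filter, Finset.mem_univ, true_and] at hd
      rw [hd]
  simp_rw [h1]
  rw [Finset.sum_fiberwise]

end Pool.Agent.H288R2
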