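import Pool.Agent.Helper431.Count

set_option autoImplicit false

namespace Pool.Agent.H288R2.Mixed

open SimpleGraph Pool.Agent.Helper431

variable {V : Type*} {G : SimpleGraph V} {r : V} {dep : V → ℕ} {p : V → V}

/-- BFS tree rooted at `r`. -/
abbrev Tree (G : SimpleGraph V) (r : V) (dep : V → ℕ) (p : V → V) : Prop :=
  BFS G ({r} : Set V) dep p

/-- `s` is in the subtree of `x`. -/
abbrev InS (r : V) (p : V → V) (x s : V) : Prop := InT ({r} : Set V) p {x} s

/-- `uv` is a non-tree edge. -/
abbrev N (G : SimpleGraph V) (r : V) (p : V → V) (u v : V) : Prop := NT G ({r} : Set V) p u v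

/-- endpoints of non-tree edges. -/
abbrev W (G : SimpleGraph V) (r : V) (p : V → V) : Set V := WS G ({r} : Set V) p

theorem dist_root (B : Tree G r dep p) (v : V) : G.dist r v = dep v := by
  obtain ⟨r', hr', h⟩ := B.dep_att v
  rw [Set.mem_singleton_iff] at hr'
  subst hr'
  rw [dist_comm]; exact h

theorem InS_dist (B : Tree G r dep p) {x s : V} (h : InS r p x s) :
    G.dist s x + dep x = dep s := BFS.J_single.mp (B.InT_J h)

theorem InS_unique (B : Tree G r dep p) {x y s : V} (hx : InS r p x s) (hy : InS r p y s)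
    (h : dep x = dep y) : x = y := by
  induction hx with
  | base z hz =>
    rw [Set.mem_singleton_iff] at hz
    subst hz
    have := B.InT_base (X := {y}) (n := dep y) (by simp) hy h
    simpa using this
  | step s hs h' ih =>
    have h1 := B.InT_dep (X := {x}) (n := dep x) (by simp) h'
    have h2 := (B.p_adj s hs).2
    have h3 : s ∉ ({y} : Set V) := by
      intro h4
      rw [Set.mem_singleton_iff] at h4
      subst h4
      omega
    exact ih (B.InT_parent hy h3).1

theorem InS_self (x : V) : InS r p x x := InT.base x rfl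

theorem InS_dep (B : Tree G r dep p) {x s : V} (h : InS r p x s) : dep x ≤ dep s :=
  B.InT_dep (X := {x}) (n := dep x) (by simp) h

/-- some edge of a geodesic enters `A`. -/
theorem entrance (hc : G.Connected) (A : V → Prop) : ∀ (n : ℕ) (s t : V), G.dist s t = n →
    ¬ A s → A t → ∃ u v, G.Adj u v ∧ ¬ A u ∧ A v ∧ G.dist s u + 1 + G.dist v t = G.dist s t := by
  intro n
  induction n with
  | zero =>
    intro s t h hs ht
    have := (hc.dist_eq_zero_iff).mp h
    exact absurd (this ▸ ht) hs
  | succ n ih =>
    intro s t h hs ht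
    have hne : s ≠ t := fun h' => hs (h' ▸ ht)
    obtain ⟨z, hz, hz'⟩ := exists_next hc hne
    by_cases hzA : A z
    · exact ⟨s, z, hz, hs, hzA, by rw [dist_self]; omega⟩
    · obtain ⟨u, v, h1, h2, h3, h4⟩ := ih z t (by omega) hzA ht
      refine ⟨u, v, h1, h2, h3, ?_⟩
      have e1 : G.dist s u ≤ G.dist s z + G.dist z u := hc.dist_triangle
      have e2 : G.dist s z = 1 := dist_eq_one_iff_adj.mpr hz
      have e3 : G.dist s t ≤ G.dist s u + G.dist u t := hc.dist_triangle
      have e4 : G.dist u t ≤ G.dist u v + G.dist v t := hc.dist_triangle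
      have e5 : G.dist u v = 1 := dist_eq_one_iff_adj.mpr h1
      omega

/-- edges entering a subtree. -/
theorem cross (B : Tree G r dep p) {x u v : V} (hadj : G.Adj u v) (hu : ¬ InS r p x u)
    (hv : InS r p x v) : (v = x ∧ u = p x) ∨ N G r p u v := by
  by_cases h1 : p v = u
  · by_cases h2 : v = x
    · left; subst h2; exact ⟨rfl, h1.symm⟩
    · exfalso
      have := (B.InT_parent hv (by simpa using h2)).1
      rw [h1] at this
      exact hu this
  · by_cases h2 : p u = v
    · exfalso
      by_cases hur : u = r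
      · rw [hur, B.p_root r rfl] at h2
        rw [hur, h2] at hadj
        exact hadj.ne rfl
      · exact hu (InT.step u hur (by rw [h2]; exact hv))
    · right
      refine ⟨hadj, ?_, h2, h1⟩
      rintro ⟨h3, h4⟩
      rw [Set.mem_singleton_iff] at h3 h4
      exact hadj.ne (h3.trans h4.symm)

theorem N_symm {u v : V} (h : N G r p u v) : N G r p v u := BFS.nt_symm h

theorem N_ne {u v : V} (h : N G r p u v) : u ≠ v := h.1.ne

theorem N_W {u v : V} (h : N G r p u v) : u ∈ W G r p := ⟨v, h⟩

theorem N_W' {u v : V} (h : N G r p u v) : v ∈ W G r p := ⟨u, N_symm h⟩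

theorem N_of_same (B : Tree G r dep p) {u v : V} (h : G.Adj u v) (hd : dep u = dep v) :
    N G r p u v := by
  refine ⟨h, ?_, B.p_ne hd.le h.ne, B.p_ne hd.ge h.ne'⟩
  rintro ⟨h3, h4⟩
  rw [Set.mem_singleton_iff] at h3 h4
  exact h.ne (h3.trans h4.symm)

theorem N_of_up (B : Tree G r dep p) {s z : V} (h : G.Adj s z) (hd : dep z + 1 = dep s)
    (hne : z ≠ p s) : N G r p s z := B.nt_of_up h hd hne

/-- two different vertices of the same depth have ancestors which are siblings. -/
theorem exists_siblings (B : Tree G r dep p) : ∀ (n : ℕ) (u v : V), dep u = n → dep v = n →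
    u ≠ v → ∃ x y, x ≠ y ∧ x ≠ r ∧ y ≠ r ∧ p x = p y ∧ InS r p x u ∧ InS r p y v := by
  intro n
  induction n with
  | zero =>
    intro u v hu hv hne
    have h1 := B.root_of_dep hu
    have h2 := B.root_of_dep hv
    rw [Set.mem_singleton_iff] at h1 h2
    exact absurd (h1.trans h2.symm) hne
  | succ n ih =>
    intro u v hu hv hne
    have hur : u ≠ r := by
      rintro rfl
      have := B.dep_root (v := u) rfl
      omega
    have hvr : v ≠ r := by
      rintro rfl
      have := B.dep_root (v := v) rfl
      omega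
    by_cases hp : p u = p v
    · exact ⟨u, v, hne, hur, hvr, hp, InS_self u, InS_self v⟩
    · have h1 := (B.p_adj u hur).2
      have h2 := (B.p_adj v hvr).2
      obtain ⟨x, y, a1, a2, a3, a4, a5, a6⟩ := ih (p u) (p v) (by omega) (by omega) hp
      exact ⟨x, y, a1, a2, a3, a4, InT.step u hur a5, InT.step v hvr a6⟩

/-- resolution of a vertex and an edge whose upper end has the same depth by the lower end's
subtree. -/
theorem low_lt (B : Tree G r dep p) {b x s : V} (hs : InS r p b s) (hx : dep x + 1 = dep b) :
    G.dist s b < G.dist s x := by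
  have h1 := InS_dist B hs
  have h2 := B.dep_lip s x
  omega

end Pool.Agent.H288R2.Mixed
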