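import Pool.Agent.H288R2.Mixed1

set_option autoImplicit false

namespace Pool.Agent.H288R2.Mixed

open SimpleGraph Pool.Agent.Helper431

variable {V : Type*} {G : SimpleGraph V} {r : V} {dep : V → ℕ} {p : V → V}

/-- What is needed of a set `K` of sensors so that `K ∪ {r}` is mixed resolving. -/
structure Good (G : SimpleGraph V) (r : V) (dep : V → ℕ) (p : V → V) (K : V → Prop) : Prop where
  K0 : ∀ a b, N G r p a b → K a ∨ K b
  P1 : ∀ b x, b ≠ r → dep x + 1 = dep b →
    ∃ s, K s ∧ min (G.dist s (p b)) (G.dist s b) ≠ G.dist s x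
  Q2 : ∀ a b, N G r p a b → dep a = dep b → ∃ s, K s ∧ G.dist s b < G.dist s a
  Q3 : ∀ a b, N G r p a b → dep b = dep a + 1 → K b
  VV : ∀ x y, x ≠ y → dep x = dep y → ∃ s, K s ∧ G.dist s x ≠ G.dist s y
  EE : ∀ a b c d, G.Adj a b → G.Adj c d → dep a ≤ dep b → dep c ≤ dep d → dep a = dep c →
    ¬ (a = c ∧ b = d) → ¬ (a = d ∧ b = c) →
    ∃ s, K s ∧ min (G.dist s a) (G.dist s b) ≠ min (G.dist s c) (G.dist s d)

theorem pos_dist (B : Tree G r dep p) {x y : V} (h : x ≠ y) : 0 < G.dist x y :=
  B.conn.pos_dist_of_ne h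

theorem Good.ve {K : V → Prop} (H : Good G r dep p K) (B : Tree G r dep p) {x a b : V}
    (hab : G.Adj a b) :
    ∃ s, (K s ∨ s = r) ∧ G.dist s x ≠ min (G.dist s a) (G.dist s b) := by
  wlog hle : dep a ≤ dep b generalizing a b
  · obtain ⟨s, hs, h⟩ := this hab.symm (by omega)
    exact ⟨s, hs, by rwa [min_comm]⟩
  by_cases h0 : dep x = dep a
  swap
  · refine ⟨r, Or.inr rfl, ?_⟩
    rw [dist_root B, dist_root B, dist_root B]
    omega
  rcases Nat.eq_or_lt_of_le hle with h1 | h1
  · have hN := N_of_same B hab h1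
    by_cases hxa : x = a
    · subst hxa
      obtain ⟨s, hs, h⟩ := H.Q2 x b hN h1
      exact ⟨s, Or.inl hs, by omega⟩
    · by_cases hxb : x = b
      · subst hxb
        obtain ⟨s, hs, h⟩ := H.Q2 x a (N_symm hN) h1.symm
        exact ⟨s, Or.inl hs, by omega⟩
      · rcases H.K0 a b hN with h | h
        · refine ⟨a, Or.inl h, ?_⟩
          have h2 : G.dist a a = 0 := dist_self
          have := pos_dist B (Ne.symm hxa)
          omega
        · refine ⟨b, Or.inl h, ?_⟩
          have h2 : G.dist b b = 0 := dist_self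
          have := pos_dist B (Ne.symm hxb)
          omega
  · have h2 : dep b = dep a + 1 := by
      have := B.dep_adj hab.symm
      omega
    by_cases hp : p b = a
    · have hbr : b ≠ r := by
        rintro rfl
        have := B.dep_root (v := b) rfl
        omega
      obtain ⟨s, hs, h⟩ := H.P1 b x hbr (by omega)
      rw [hp] at h
      exact ⟨s, Or.inl hs, Ne.symm h⟩
    · have hN : N G r p a b := N_symm (N_of_up B hab.symm h2.symm (fun h => hp h.symm))
      refine ⟨b, Or.inl (H.Q3 a b hN h2), ?_⟩
      have hxb : x ≠ b := by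
        rintro rfl
        omega
      have h3 : G.dist b b = 0 := dist_self
      have := pos_dist B (Ne.symm hxb)
      omega

theorem Good.vv {K : V → Prop} (H : Good G r dep p K) (B : Tree G r dep p) {x y : V}
    (hxy : x ≠ y) : ∃ s, (K s ∨ s = r) ∧ G.dist s x ≠ G.dist s y := by
  by_cases h0 : dep x = dep y
  · obtain ⟨s, hs, h⟩ := H.VV x y hxy h0
    exact ⟨s, Or.inl hs, h⟩
  · refine ⟨r, Or.inr rfl, ?_⟩
    rwa [dist_root B, dist_root B]

theorem Good.ee {K : V → Prop} (H : Good G r dep p K) (B : Tree G r dep p) {a b c d : V}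
    (hab : G.Adj a b) (hcd : G.Adj c d) (h1 : ¬ (a = c ∧ b = d)) (h2 : ¬ (a = d ∧ b = c)) :
    ∃ s, (K s ∨ s = r) ∧
      min (G.dist s a) (G.dist s b) ≠ min (G.dist s c) (G.dist s d) := by
  wlog hle : dep a ≤ dep b generalizing a b
  · obtain ⟨s, hs, h⟩ := this hab.symm (fun h => h2 ⟨h.2, h.1⟩) (fun h => h1 ⟨h.2, h.1⟩) (by omega)
    exact ⟨s, hs, by rwa [min_comm (G.dist s a)]⟩
  wlog hle' : dep c ≤ dep d generalizing c d
  · obtain ⟨s, hs, h⟩ := this hcd.symm h2 h1 (by omega)
    exact ⟨s, hs, by rwa [min_comm (G.dist s c)]⟩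
  by_cases h0 : dep a = dep c
  · obtain ⟨s, hs, h⟩ := H.EE a b c d hab hcd hle hle' h0 h1 h2
    exact ⟨s, Or.inl hs, h⟩
  · refine ⟨r, Or.inr rfl, ?_⟩
    rw [dist_root B, dist_root B, dist_root B, dist_root B]
    omega

/-- all endpoints of non-tree edges are good. -/
theorem good_W (B : Tree G r dep p)
    (hgood : ∀ v, v ≠ r → ∃ s ∈ W G r p, InS r p v s) :
    Good G r dep p (fun s => s ∈ W G r p) where
  K0 a b h := Or.inl (N_W h)
  P1 b x hb hx := by
    obtain ⟨s, hs, hT⟩ := hgood b hb
    have := low_lt B hT hx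
    exact ⟨s, hs, by omega⟩
  Q2 a b h hd := ⟨b, N_W' h, by
    have h1 : G.dist b b = 0 := dist_self
    have := pos_dist B (N_ne h).symm
    omega⟩
  Q3 a b h _ := N_W' h
  VV x y hxy hd := by
    refine B.resolve_vertex hgood hxy ?_
    rintro ⟨h1, h2⟩
    rw [Set.mem_singleton_iff] at h1 h2
    exact hxy (h1.trans h2.symm)
  EE a b c d hab hcd _ _ _ h1 h2 := by
    refine B.resolve_edge hgood hab hcd h1 h2 ?_
    rintro ⟨⟨h3, h4⟩, -⟩
    rw [Set.mem_singleton_iff] at h3 h4
    exact hab.ne (h3.trans h4.symm)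

/-- the edge part from simpler properties, when the non-tree edges form a matching. -/
theorem ee_of (B : Tree G r dep p) {K : V → Prop}
    (M : ∀ s z z', N G r p s z → N G r p s z' → z = z')
    (K0 : ∀ a b, N G r p a b → K a ∨ K b)
    (Q1 : ∀ a b b', N G r p a b → dep a = dep b → dep b' = dep a + 1 → K a)
    (Q3 : ∀ a b, N G r p a b → dep b = dep a + 1 → K b)
    (Q4 : ∀ a b, N G r p a b → dep b = dep a + 1 →
      ∃ s, K s ∧ min (G.dist s (p b)) (G.dist s b) ≠ min (G.dist s a) (G.dist s b))
    (Q6 : ∀ b b', b ≠ r → b' ≠ r → b ≠ b' → dep b = dep b' →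
      ∃ s, K s ∧ min (G.dist s (p b)) (G.dist s b) ≠ min (G.dist s (p b')) (G.dist s b'))
    (a b c d : V) (hab : G.Adj a b) (hcd : G.Adj c d) (h1 : dep a ≤ dep b) (h2 : dep c ≤ dep d)
    (h0 : dep a = dep c) (hne1 : ¬ (a = c ∧ b = d)) (hne2 : ¬ (a = d ∧ b = c)) :
    ∃ s, K s ∧ min (G.dist s a) (G.dist s b) ≠ min (G.dist s c) (G.dist s d) := by
  have hpos : ∀ {x y : V}, x ≠ y → 0 < G.dist x y := fun h => pos_dist B h
  have hself : ∀ x : V, G.dist x x = 0 := fun x => dist_self
  -- horizontal against vertical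
  have hv : ∀ {a b c d : V}, G.Adj a b → G.Adj c d → dep a = dep b → dep d = dep c + 1 →
      dep a = dep c →
      ∃ s, K s ∧ min (G.dist s a) (G.dist s b) ≠ min (G.dist s c) (G.dist s d) := by
    intro a b c d hab hcd h1 h2 h0
    have hN := N_of_same B hab h1
    by_cases hac : a = c
    · subst hac
      have hK := Q1 b a d (N_symm hN) h1.symm (by omega)
      have hbd : b ≠ d := by rintro rfl; omega
      have e1 := hself b
      have e2 := hpos hab.ne'
      have e3 := hpos hbd
      exact ⟨b, hK, by omega⟩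
    · have hK := Q1 a b d hN h1 (by omega)
      have had : a ≠ d := by rintro rfl; omega
      have e1 := hself a
      have e2 := hpos hac
      have e3 := hpos had
      exact ⟨a, hK, by omega⟩
  rcases Nat.eq_or_lt_of_le h1 with g1 | g1
  · rcases Nat.eq_or_lt_of_le h2 with g2 | g2
    · -- both horizontal
      have hN := N_of_same B hab g1
      have hN' := N_of_same B hcd g2
      rcases K0 a b hN with hK | hK
      · have hac : a ≠ c := by
          rintro rfl
          exact hne1 ⟨rfl, M a b d hN hN'⟩
        have had : a ≠ d := by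
          rintro rfl
          exact hne2 ⟨rfl, M a b c hN (N_symm hN')⟩
        have e1 := hself a
        have e2 := hpos hac
        have e3 := hpos had
        exact ⟨a, hK, by omega⟩
      · have hbc : b ≠ c := by
          rintro rfl
          exact hne2 ⟨M b a d (N_symm hN) hN', rfl⟩
        have hbd : b ≠ d := by
          rintro rfl
          exact hne1 ⟨M b a c (N_symm hN) (N_symm hN'), rfl⟩
        have e1 := hself b
        have e2 := hpos hbc
        have e3 := hpos hbd
        exact ⟨b, hK, by omega⟩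
    · have g3 : dep d = dep c + 1 := by
        have := B.dep_adj hcd.symm
        omega
      exact hv hab hcd g1 g3 h0
  · have g4 : dep b = dep a + 1 := by
      have := B.dep_adj hab.symm
      omega
    rcases Nat.eq_or_lt_of_le h2 with g2 | g2
    · obtain ⟨s, hs, h⟩ := hv hcd hab g2 g4 h0.symm
      exact ⟨s, hs, Ne.symm h⟩
    · have g3 : dep d = dep c + 1 := by
        have := B.dep_adj hcd.symm
        omega
      have hbr : b ≠ r := by
        rintro rfl
        have := B.dep_root (v := b) rfl
        omega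
      have hdr : d ≠ r := by
        rintro rfl
        have := B.dep_root (v := d) rfl
        omega
      by_cases hbd : b = d
      · subst hbd
        have hac : a ≠ c := fun h => hne1 ⟨h, rfl⟩
        by_cases hpa : p b = a
        · have hN : N G r p c b :=
            N_symm (N_of_up B hcd.symm g3.symm (fun h => hac (hpa.symm.trans h.symm)))
          obtain ⟨s, hs, h⟩ := Q4 c b hN g3
          rw [hpa] at h
          exact ⟨s, hs, h⟩
        · have hN : N G r p a b := N_symm (N_of_up B hab.symm g4.symm (fun h => hpa h.symm))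
          by_cases hpc : p b = c
          · obtain ⟨s, hs, h⟩ := Q4 a b hN g4
            rw [hpc] at h
            exact ⟨s, hs, Ne.symm h⟩
          · have hN' : N G r p c b := N_symm (N_of_up B hcd.symm g3.symm (fun h => hpc h.symm))
            exact absurd (M b a c (N_symm hN) (N_symm hN')) hac
      · by_cases hpa : p b = a
        · by_cases hpc : p d = c
          · obtain ⟨s, hs, h⟩ := Q6 b d hbr hdr hbd (by omega)
            rw [hpa, hpc] at h
            exact ⟨s, hs, h⟩
          · have hN' : N G r p c d := N_symm (N_of_up B hcd.symm g3.symm (fun h => hpc h.symm))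
            have hda : d ≠ a := by rintro rfl; omega
            have e1 := hself d
            have e2 := hpos hda
            have e3 := hpos (Ne.symm hbd)
            exact ⟨d, Q3 c d hN' g3, by omega⟩
        · have hN : N G r p a b := N_symm (N_of_up B hab.symm g4.symm (fun h => hpa h.symm))
          have hbc : b ≠ c := by rintro rfl; omega
          have e1 := hself b
          have e2 := hpos hbc
          have e3 := hpos hbd
          exact ⟨b, Q3 a b hN g4, by omega⟩

end Pool.Agent.H288R2.Mixed
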