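import Pool.Agent.H288R2.Mixed2

set_option autoImplicit false

namespace Pool.Agent.H288R2.Mixed

open SimpleGraph Pool.Agent.Helper431

variable {V : Type*} {G : SimpleGraph V} {r : V} {dep : V → ℕ} {p : V → V}

/-- `s` has a monotone geodesic to `x`. -/
def Jd (G : SimpleGraph V) (dep : V → ℕ) (x s : V) : Prop := G.dist s x + dep x = dep s

theorem side (B : Tree G r dep p) {x y s : V} (hxy : x ≠ y) (hd : dep x = dep y)
    (hsT : InS r p x s) (hmin : ∀ t ∈ W G r p, InS r p x t → dep s ≤ dep t)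
    (hJ : Jd G dep y s) :
    ∃ z, N G r p s z ∧ dep z + 1 = dep s ∧ Jd G dep y z ∧ ¬ Jd G dep x z ∧ ¬ InS r p x z := by
  have hge := InS_dep B hsT
  have hlt : dep x < dep s := by
    rcases Nat.lt_or_ge (dep x) (dep s) with h | h
    · exact h
    · exfalso
      have h1 := InS_dist B hsT
      have h2 : G.dist s x = 0 := by omega
      have h3 : G.dist s y = 0 := by unfold Jd at hJ; omega
      have e1 := (B.conn.dist_eq_zero_iff).mp h2
      have e2 := (B.conn.dist_eq_zero_iff).mp h3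
      exact hxy (e1.symm.trans e2)
  obtain ⟨z, hz, hzd, hzJ⟩ := B.J_step (X := {y}) (n := dep y) (by simp)
    (BFS.J_single.mpr hJ) (by omega)
  have hzT : ¬ InS r p x z := fun hzT =>
    B.claimB (X := {x}) (Y := {y}) (n := dep x) (m := dep s) (by simp) (by simp [hd])
      (by simpa using hxy) hmin hzT (by omega) hzJ
  have hsX : s ≠ x := fun h => by rw [h] at hlt; omega
  have hzp : z ≠ p s := by
    rintro rfl
    exact hzT (B.InT_parent hsT (by simpa using hsX)).1
  have hN := N_of_up B hz hzd hzp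
  refine ⟨z, hN, hzd, BFS.J_single.mp hzJ, ?_, hzT⟩
  intro hzX
  exact B.claimC (X := {x}) (n := dep x) (m := dep s) (by simp) hmin (dep z) z rfl hzT
    (by omega) (BFS.J_single.mpr hzX)

/-- a member of `W` of minimal depth below `x` with a property. -/
theorem exists_min (P : V → Prop) (h : ∃ s, P s) : ∃ s, P s ∧ ∀ t, P t → dep s ≤ dep t := by
  classical
  have hex : ∃ n, ∃ s, P s ∧ dep s = n := by
    obtain ⟨s, hs⟩ := h
    exact ⟨_, s, hs, rfl⟩
  obtain ⟨s, hs, hsd⟩ := Nat.find_spec hex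
  refine ⟨s, hs, fun t ht => ?_⟩
  rw [hsd]
  exact Nat.find_min' hex ⟨t, ht, rfl⟩

theorem ne_root (B : Tree G r dep p) {x y : V} (hxy : x ≠ y) (hd : dep x = dep y) : x ≠ r := by
  rintro rfl
  have h1 := B.dep_root (v := x) rfl
  have h2 := B.root_of_dep (v := y) (by omega)
  exact hxy h2.symm

/-- separation in the horizontal case. -/
theorem sep2 (B : Tree G r dep p) (hgood : ∀ v, v ≠ r → ∃ s ∈ W G r p, InS r p v s)
    {w : V} (hmax : ∀ v, dep v ≤ dep w) {x y : V} (hxy : x ≠ y) (hd : dep x = dep y) :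
    ∃ s, (s ∈ W G r p ∧ s ≠ w) ∧ ¬ (Jd G dep x s ↔ Jd G dep y s) := by
  wlog hw : ¬ InS r p x w generalizing x y
  · push Not at hw
    obtain ⟨s, hs, h⟩ := this hxy.symm hd.symm (fun h => hxy (InS_unique B hw h hd))
    exact ⟨s, hs, fun h' => h h'.symm⟩
  by_contra hcon
  push Not at hcon
  obtain ⟨s, ⟨hsW, hsT⟩, hmin⟩ := exists_min (dep := dep) (fun s => s ∈ W G r p ∧ InS r p x s)
    (hgood x (ne_root B hxy hd))
  have hsw : s ≠ w := fun h => hw (h ▸ hsT)
  have hJx : Jd G dep x s := InS_dist B hsT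
  have hJy := (hcon s ⟨hsW, hsw⟩).mp hJx
  obtain ⟨z, hN, hzd, hz1, hz2, -⟩ := side B hxy hd hsT (fun t ht ht' => hmin t ⟨ht, ht'⟩) hJy
  have hzw : z ≠ w := by
    rintro rfl
    have := hmax s
    omega
  exact hz2 ((hcon z ⟨N_W' hN, hzw⟩).mpr hz1)

/-- `w` is the only member of `W` below `x`. -/
def Only (G : SimpleGraph V) (r : V) (p : V → V) (x w : V) : Prop :=
  InS r p x w ∧ ∀ s ∈ W G r p, InS r p x s → s = w

theorem sep1_aux (B : Tree G r dep p) (hgood : ∀ v, v ≠ r → ∃ s ∈ W G r p, InS r p v s)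
    (M : ∀ s z z', N G r p s z → N G r p s z' → z = z')
    {w w' : V} (hN : N G r p w w') (hmax : ∀ v, dep v ≤ dep w) {x y : V} (hxy : x ≠ y)
    (hd : dep x = dep y) (hx : ¬ InS r p x w')
    (hcon : ∀ s, (s ∈ W G r p ∧ s ≠ w') → (Jd G dep x s ↔ Jd G dep y s)) :
    Only G r p x w := by
  have key : ∀ s, s ∈ W G r p → InS r p x s → (∀ t ∈ W G r p, InS r p x t → dep s ≤ dep t) →
      s = w := by
    intro s hsW hsT hmin
    have hsw : s ≠ w' := fun h => hx (h ▸ hsT)
    have hJy := (hcon s ⟨hsW, hsw⟩).mp (InS_dist B hsT)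
    obtain ⟨z, hNz, hzd, hz1, hz2, -⟩ := side B hxy hd hsT hmin hJy
    have hzw : z = w' := by
      by_contra hne
      exact hz2 ((hcon z ⟨N_W' hNz, hne⟩).mpr hz1)
    subst hzw
    exact M z s w (N_symm hNz) (N_symm hN)
  obtain ⟨s, ⟨hsW, hsT⟩, hmin⟩ := exists_min (dep := dep) (fun s => s ∈ W G r p ∧ InS r p x s)
    (hgood x (ne_root B hxy hd))
  have hsw := key s hsW hsT (fun t ht ht' => hmin t ⟨ht, ht'⟩)
  subst hsw
  refine ⟨hsT, fun t htW htT => ?_⟩
  refine key t htW htT (fun u hu hu' => ?_)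
  have := hmin u ⟨hu, hu'⟩
  have := hmax t
  omega

theorem sep1_main (B : Tree G r dep p) (hgood : ∀ v, v ≠ r → ∃ s ∈ W G r p, InS r p v s)
    (M : ∀ s z z', N G r p s z → N G r p s z' → z = z')
    {w w' : V} (hN : N G r p w w') (hmax : ∀ v, dep v ≤ dep w) (hdw : dep w' + 1 = dep w)
    {x y : V} (hxy : x ≠ y)
    (hd : dep x = dep y) (hx : ¬ InS r p x w')
    (hcon : ∀ s, (s ∈ W G r p ∧ s ≠ w') → (Jd G dep x s ↔ Jd G dep y s)) :
    Only G r p x w ∧ Only G r p y w' := by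
  have hox := sep1_aux B hgood M hN hmax hxy hd hx hcon
  have hyw' : InS r p y w' := by
    by_contra hy
    have := sep1_aux B hgood M hN hmax hxy.symm hd.symm hy (fun s hs => (hcon s hs).symm)
    exact hxy (InS_unique B hox.1 this.1 hd)
  refine ⟨hox, hyw', ?_⟩
  by_contra hne
  push Not at hne
  obtain ⟨s, ⟨hsW, hsT, hsw⟩, hmin⟩ := exists_min (dep := dep)
    (fun s => s ∈ W G r p ∧ InS r p y s ∧ s ≠ w') (by
      obtain ⟨s, h1, h2, h3⟩ := hne
      exact ⟨s, h1, h2, h3⟩)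
  have hJx := (hcon s ⟨hsW, hsw⟩).mpr (InS_dist B hsT)
  rcases Nat.lt_or_ge (dep w') (dep s) with hlt | hge
  · have hds : dep s = dep w := by
      have := hmax s
      omega
    have hdx : dep x ≤ dep w' := by
      have := InS_dep B hyw'
      omega
    obtain ⟨z, hz, hzd, hzJ⟩ := B.J_step (X := {x}) (n := dep x) (by simp)
      (BFS.J_single.mpr hJx) (by omega)
    have hzT : InS r p x z := by
      by_contra hzT
      exact B.claimC (X := {x}) (n := dep x) (m := dep w) (by simp)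
        (fun t ht ht' => by rw [hox.2 t ht ht']) (dep z) z rfl hzT (by omega) hzJ
    have hsT' : ¬ InS r p x s := fun h => hxy (InS_unique B h hsT hd)
    have hsr : s ≠ r := by
      rintro rfl
      have := B.dep_root (v := s) rfl
      omega
    have hzp : z ≠ p s := by
      rintro rfl
      exact hsT' (InT.step s hsr hzT)
    have hNz := N_of_up B hz hzd hzp
    have := hox.2 z (N_W' hNz) hzT
    subst this
    omega
  · obtain ⟨z, hNz, hzd, hz1, hz2, hz3⟩ := side B hxy.symm hd.symm hsT (fun t ht ht' => by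
      by_cases htw : t = w'
      · subst htw; exact hge
      · exact hmin t ⟨ht, ht', htw⟩) hJx
    have hzw : z ≠ w' := fun h => hz3 (h ▸ hyw')
    exact hz2 ((hcon z ⟨N_W' hNz, hzw⟩).mp hz1)

theorem sep1 (B : Tree G r dep p) (hgood : ∀ v, v ≠ r → ∃ s ∈ W G r p, InS r p v s)
    (M : ∀ s z z', N G r p s z → N G r p s z' → z = z')
    {w w' : V} (hN : N G r p w w') (hmax : ∀ v, dep v ≤ dep w) (hdw : dep w' + 1 = dep w)
    {x y : V} (hxy : x ≠ y) (hd : dep x = dep y) :
    (∃ s, (s ∈ W G r p ∧ s ≠ w') ∧ ¬ (Jd G dep x s ↔ Jd G dep y s)) ∨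
      (Only G r p x w ∧ Only G r p y w') ∨ (Only G r p y w ∧ Only G r p x w') := by
  by_contra hcon
  push Not at hcon
  obtain ⟨h1, h2, h3⟩ := hcon
  have h1' : ∀ s, (s ∈ W G r p ∧ s ≠ w') → (Jd G dep x s ↔ Jd G dep y s) :=
    fun s hs => h1 s hs
  by_cases hx : InS r p x w'
  · have hy : ¬ InS r p y w' := fun h => hxy (InS_unique B hx h hd)
    obtain ⟨a, b⟩ := sep1_main B hgood M hN hmax hdw hxy.symm hd.symm hy
      (fun s hs => (h1' s hs).symm)
    exact h3 a b
  · obtain ⟨a, b⟩ := sep1_main B hgood M hN hmax hdw hxy hd hx h1'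
    exact h2 a b

end Pool.Agent.H288R2.Mixed
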