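import Pool.Agent.H288R2.Mixed3

set_option autoImplicit false

namespace Pool.Agent.H288R2.Mixed

open SimpleGraph Pool.Agent.Helper431

variable {V : Type*} {G : SimpleGraph V} {r : V} {dep : V → ℕ} {p : V → V}

/-- consequence of two-connectivity: no set of vertices has a single outer boundary vertex unless
it contains everything else. -/
def NoCut (G : SimpleGraph V) : Prop :=
  ∀ (q : V) (A : V → Prop), ¬ A q → (∃ a, A a) →
    (∀ u v, G.Adj u v → ¬ A u → A v → u = q) → ∀ t, t ≠ q → A t

theorem no_cut (B : Tree G r dep p) (hcut : NoCut G)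
    (M : ∀ s z z', N G r p s z → N G r p s z' → z = z')
    {w w' x y : V} (hN : N G r p w w') (hxy : x ≠ y) (hxr : x ≠ r) (hyr : y ≠ r)
    (hp : p x = p y) (hx : InS r p x w) (hy : InS r p y w')
    (hZ : ∀ s ∈ W G r p, (InS r p x s ∨ InS r p y s) → s = w ∨ s = w')
    (h2 : ∃ s s', N G r p s s' ∧ ¬ (s = w ∧ s' = w') ∧ ¬ (s = w' ∧ s' = w)) : False := by
  have hdx := (B.p_adj x hxr).2
  have hdy := (B.p_adj y hyr).2
  have hd : dep x = dep y := by rw [hp] at hdx; omega
  have hAq : ¬ (InS r p x (p x) ∨ InS r p y (p x)) := by
    rintro (h | h)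
    · have := InS_dep B h; omega
    · have := InS_dep B h; rw [hp] at this; omega
  have hall := hcut (p x) (fun v => InS r p x v ∨ InS r p y v) hAq ⟨w, Or.inl hx⟩ (by
    intro u v hadj hu hv
    push Not at hu
    rcases hv with hv | hv
    · rcases cross B hadj hu.1 hv with ⟨-, h⟩ | h
      · exact h
      · exfalso
        rcases hZ v (N_W' h) (Or.inl hv) with rfl | rfl
        · have := M v u w' (N_symm h) hN
          rw [this] at hu
          exact hu.2 hy
        · exact hxy (InS_unique B hv hy hd)
    · rcases cross B hadj hu.2 hv with ⟨-, h⟩ | h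
      · rw [h, hp]
      · exfalso
        rcases hZ v (N_W' h) (Or.inr hv) with rfl | rfl
        · exact hxy (InS_unique B hx hv hd)
        · have := M v u w (N_symm h) (N_symm hN)
          rw [this] at hu
          exact hu.1 hx)
  obtain ⟨s, s', hs, h3, h4⟩ := h2
  have k : ∀ s s', N G r p s s' → ¬ (s = w ∧ s' = w') → ¬ (s = w' ∧ s' = w) → s = p x := by
    intro s s' hs h3 h4
    by_contra hne
    rcases hZ s (N_W hs) (hall s hne) with rfl | rfl
    · exact h3 ⟨rfl, M s s' w' hs hN⟩
    · exact h4 ⟨rfl, M s s' w hs (N_symm hN)⟩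
  have e1 := k s s' hs h3 h4
  have e2 := k s' s (N_symm hs) (fun h => h4 ⟨h.2, h.1⟩) (fun h => h3 ⟨h.2, h.1⟩)
  exact (N_ne hs) (e1.trans e2.symm)

/-- horizontal case: some other member of `W` sees `w, w'` at different distances. -/
theorem claimH (B : Tree G r dep p) (hcut : NoCut G)
    (M : ∀ s z z', N G r p s z → N G r p s z' → z = z')
    {w w' : V} (hN : N G r p w w') (hdw : dep w' = dep w)
    (h2 : ∃ s s', N G r p s s' ∧ ¬ (s = w ∧ s' = w') ∧ ¬ (s = w' ∧ s' = w)) :
    ∃ s ∈ W G r p, s ≠ w ∧ s ≠ w' ∧ G.dist s w ≠ G.dist s w' := by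
  by_contra hcon
  push Not at hcon
  obtain ⟨x, y, hxy, hxr, hyr, hp, hx, hy⟩ := exists_siblings B (dep w) w w' rfl hdw (N_ne hN)
  have hdx := (B.p_adj x hxr).2
  have hdy := (B.p_adj y hyr).2
  have hd : dep x = dep y := by rw [hp] at hdx; omega
  have hwx := InS_dist B hx
  have hwy := InS_dist B hy
  have hxw := InS_dep B hx
  have hself : ∀ x : V, G.dist x x = 0 := fun x => dist_self
  have key : ∀ (n : ℕ) (s : V), G.dist s w' = n → s ∈ W G r p → s ≠ w → s ≠ w' →
      (InS r p x s ∨ InS r p y s) → False := by
    intro n
    induction n using Nat.strong_induction_on with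
    | _ n ih =>
      intro s hn hsW hsw hsw' hs
      have heq := hcon s hsW hsw hsw'
      rcases hs with hs | hs
      · have hsy : ¬ InS r p y s := fun h => hxy (InS_unique B hs h hd)
        obtain ⟨u, v, hadj, hu, hv, huv⟩ := entrance B.conn (InS r p y) _ s w' rfl hsy hy
        rcases cross B hadj hu hv with ⟨rfl, rfl⟩ | h
        · have e1 := InS_dist B hs
          have e2 : G.dist s w ≤ G.dist s x + G.dist x w := B.conn.dist_triangle
          have e3 := B.dep_lip s (p v)
          have e4 : G.dist x w = G.dist w x := dist_comm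
          have e5 : G.dist v w' = G.dist w' v := dist_comm
          omega
        · by_cases hvw : v = w'
          · subst hvw
            have := M v u w (N_symm h) (N_symm hN)
            subst this
            have := hself v
            omega
          · have hvw2 : v ≠ w := by
              rintro rfl
              exact hxy (InS_unique B hx hv hd)
            exact ih (G.dist v w') (by omega) v rfl (N_W' h) hvw2 hvw (Or.inr hv)
      · have hsx : ¬ InS r p x s := fun h => hxy (InS_unique B h hs hd)
        obtain ⟨u, v, hadj, hu, hv, huv⟩ := entrance B.conn (InS r p x) _ s w rfl hsx hx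
        rcases cross B hadj hu hv with ⟨rfl, rfl⟩ | h
        · have e1 := InS_dist B hs
          have e2 : G.dist s w' ≤ G.dist s y + G.dist y w' := B.conn.dist_triangle
          have e3 := B.dep_lip s (p v)
          have e4 : G.dist y w' = G.dist w' y := dist_comm
          have e5 : G.dist v w = G.dist w v := dist_comm
          omega
        · by_cases hvw : v = w
          · subst hvw
            have := M v u w' (N_symm h) hN
            subst this
            have := hself v
            omega
          · have hvw2 : v ≠ w' := by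
              rintro rfl
              exact hxy (InS_unique B hv hy hd)
            have e1 := hcon v (N_W' h) hvw hvw2
            exact ih (G.dist v w') (by omega) v rfl (N_W' h) hvw hvw2 (Or.inl hv)
  refine no_cut B hcut M hN hxy hxr hyr hp hx hy (fun s hs hs' => ?_) h2
  by_contra hne
  push Not at hne
  exact key _ s rfl hs hne.1 hne.2 hs'

/-- neighbours of a deepest member of `W`. -/
theorem nb (B : Tree G r dep p) (M : ∀ s z z', N G r p s z → N G r p s z' → z = z')
    {w w' u : V} (hN : N G r p w w') (hmax : ∀ v, dep v ≤ dep w) (hwr : w ≠ r)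
    (hadj : G.Adj w u) : u = p w ∨ u = w' := by
  by_cases h1 : p w = u
  · exact Or.inl h1.symm
  · by_cases h2 : p u = w
    · exfalso
      by_cases hur : u = r
      · rw [hur, B.p_root r rfl] at h2
        exact hwr h2.symm
      · have := (B.p_adj u hur).2
        rw [h2] at this
        have := hmax u
        omega
    · right
      refine M w u w' ⟨hadj, ?_, h1, h2⟩ hN
      rintro ⟨h3, h4⟩
      exact hwr h3

theorem w_ne_root (B : Tree G r dep p) {w w' : V} (hN : N G r p w w')
    (hmax : ∀ v, dep v ≤ dep w) : w ≠ r := by
  rintro rfl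
  have h1 := B.dep_root (v := w) rfl
  have h2 := hmax w'
  have h3 := B.root_of_dep (v := w') (by omega)
  exact N_ne hN h3.symm

/-- distances to a deepest member of `W`. -/
theorem dist_w (B : Tree G r dep p) (M : ∀ s z z', N G r p s z → N G r p s z' → z = z')
    {w w' s : V} (hN : N G r p w w') (hmax : ∀ v, dep v ≤ dep w) (hs : s ≠ w) :
    G.dist s w = G.dist s (p w) + 1 ∨ G.dist s w = G.dist s w' + 1 := by
  obtain ⟨z, hz, hz'⟩ := exists_next B.conn hs.symm
  have e1 : G.dist s w = G.dist w s := dist_comm
  rcases nb B M hN hmax (w_ne_root B hN hmax) hz with rfl | rfl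
  · left
    have e2 : G.dist s (p w) = G.dist (p w) s := dist_comm
    omega
  · right
    have e2 : G.dist s z = G.dist z s := dist_comm
    omega

/-- vertical case. -/
theorem claimN (B : Tree G r dep p) (hcut : NoCut G)
    (M : ∀ s z z', N G r p s z → N G r p s z' → z = z')
    {w w' : V} (hN : N G r p w w') (hmax : ∀ v, dep v ≤ dep w) (hdw : dep w' + 1 = dep w)
    (h2 : ∃ s s', N G r p s s' ∧ ¬ (s = w ∧ s' = w') ∧ ¬ (s = w' ∧ s' = w)) :
    ∃ s ∈ W G r p, s ≠ w ∧ s ≠ w' ∧ G.dist s (p w) ≠ G.dist s w' := by
  by_contra hcon
  push Not at hcon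
  have hwr := w_ne_root B hN hmax
  have hpw := B.p_adj w hwr
  have hself : ∀ x : V, G.dist x x = 0 := fun x => dist_self
  obtain ⟨x, y, hxy, hxr, hyr, hp, hx1, hy⟩ := exists_siblings B (dep w') (p w) w' (by omega) rfl
    hN.2.2.1
  have hx : InS r p x w := InT.step w hwr hx1
  have hdx := (B.p_adj x hxr).2
  have hdy := (B.p_adj y hyr).2
  have hd : dep x = dep y := by rw [hp] at hdx; omega
  have hwx := InS_dist B hx1
  have hwy := InS_dist B hy
  have hxw := InS_dep B hx1
  have hd1 : G.dist w (p w) = 1 := dist_eq_one_iff_adj.mpr hpw.1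
  have key : ∀ (n : ℕ) (s : V), G.dist s w' = n → s ∈ W G r p → s ≠ w → s ≠ w' →
      (InS r p x s ∨ InS r p y s) → False := by
    intro n
    induction n using Nat.strong_induction_on with
    | _ n ih =>
      intro s hn hsW hsw hsw' hs
      have heq := hcon s hsW hsw hsw'
      rcases hs with hs | hs
      · have hsy : ¬ InS r p y s := fun h => hxy (InS_unique B hs h hd)
        obtain ⟨u, v, hadj, hu, hv, huv⟩ := entrance B.conn (InS r p y) _ s w' rfl hsy hy
        rcases cross B hadj hu hv with ⟨rfl, rfl⟩ | h
        · have e1 := InS_dist B hs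
          have e2 : G.dist s (p w) ≤ G.dist s x + G.dist x (p w) := B.conn.dist_triangle
          have e3 := B.dep_lip s (p v)
          have e4 : G.dist x (p w) = G.dist (p w) x := dist_comm
          have e5 : G.dist v w' = G.dist w' v := dist_comm
          omega
        · by_cases hvw : v = w'
          · subst hvw
            have := M v u w (N_symm h) (N_symm hN)
            subst this
            have e1 := hself v
            rcases dist_w B M hN hmax hsw with e2 | e2 <;> omega
          · have hvw2 : v ≠ w := by
              rintro rfl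
              exact hxy (InS_unique B hx hv hd)
            exact ih (G.dist v w') (by omega) v rfl (N_W' h) hvw2 hvw (Or.inr hv)
      · have hsx : ¬ InS r p x s := fun h => hxy (InS_unique B h hs hd)
        obtain ⟨u, v, hadj, hu, hv, huv⟩ := entrance B.conn (InS r p x) _ s (p w) rfl hsx hx1
        rcases cross B hadj hu hv with ⟨rfl, rfl⟩ | h
        · have e1 := InS_dist B hs
          have e2 : G.dist s w' ≤ G.dist s y + G.dist y w' := B.conn.dist_triangle
          have e3 := B.dep_lip s (p v)
          have e4 : G.dist y w' = G.dist w' y := dist_comm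
          have e5 : G.dist v (p w) = G.dist (p w) v := dist_comm
          omega
        · by_cases hvw : v = w
          · subst hvw
            have := M v u w' (N_symm h) hN
            subst this
            omega
          · have hvw2 : v ≠ w' := by
              rintro rfl
              exact hxy (InS_unique B hv hy hd)
            have e1 := hcon v (N_W' h) hvw hvw2
            exact ih (G.dist v w') (by omega) v rfl (N_W' h) hvw hvw2 (Or.inl hv)
  refine no_cut B hcut M hN hxy hxr hyr hp hx hy (fun s hs hs' => ?_) h2
  by_contra hne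
  push Not at hne
  exact key _ s rfl hs hne.1 hne.2 hs'

end Pool.Agent.H288R2.Mixed
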