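import Pool.Agent.H288R2.Mixed4

set_option autoImplicit false

namespace Pool.Agent.H288R2.Mixed

open SimpleGraph Pool.Agent.Helper431

variable {V : Type*} {G : SimpleGraph V} {r : V} {dep : V → ℕ} {p : V → V}

theorem Jd_vv {x y s : V} (hd : dep x = dep y) (h : ¬ (Jd G dep x s ↔ Jd G dep y s)) :
    G.dist s x ≠ G.dist s y := by
  intro he
  apply h
  unfold Jd
  omega

theorem Jd_ee (B : Tree G r dep p) {x y s : V} (hx : x ≠ r) (hy : y ≠ r) (hd : dep x = dep y)
    (h : ¬ (Jd G dep x s ↔ Jd G dep y s)) :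
    min (G.dist s (p x)) (G.dist s x) ≠ min (G.dist s (p y)) (G.dist s y) := by
  intro he
  apply h
  have h1 := (B.p_adj x hx).2
  have h2 := (B.p_adj y hy).2
  have h3 := B.dep_lip s (p x)
  have h4 := B.dep_lip s (p y)
  have h5 := B.dep_lip s x
  have h6 := B.dep_lip s y
  unfold Jd
  omega

/-- the horizontal case. -/
theorem good2 (B : Tree G r dep p) (hgood : ∀ v, v ≠ r → ∃ s ∈ W G r p, InS r p v s)
    (M : ∀ s z z', N G r p s z → N G r p s z' → z = z')
    {w w' : V} (hN : N G r p w w') (hmax : ∀ v, dep v ≤ dep w) (hdw : dep w' = dep w)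
    {s0 : V} (h0W : s0 ∈ W G r p) (h0w : s0 ≠ w) (h0 : G.dist s0 w < G.dist s0 w') :
    Good G r dep p (fun s => s ∈ W G r p ∧ s ≠ w) := by
  have hself : ∀ x : V, G.dist x x = 0 := fun x => dist_self
  have K0 : ∀ a b, N G r p a b → (a ∈ W G r p ∧ a ≠ w) ∨ (b ∈ W G r p ∧ b ≠ w) := by
    intro a b h
    by_cases ha : a = w
    · right
      exact ⟨N_W' h, fun hb => N_ne h (ha.trans hb.symm)⟩
    · exact Or.inl ⟨N_W h, ha⟩
  have Q3 : ∀ a b, N G r p a b → dep b = dep a + 1 → b ∈ W G r p ∧ b ≠ w := by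
    intro a b h hd
    refine ⟨N_W' h, ?_⟩
    rintro rfl
    have := M b a w' (N_symm h) hN
    subst this
    omega
  have P1 : ∀ b x, b ≠ r → dep x + 1 = dep b → ∃ s, (s ∈ W G r p ∧ s ≠ w) ∧
      min (G.dist s (p b)) (G.dist s b) ≠ G.dist s x := by
    intro b x hb hx
    by_cases hex : ∃ s ∈ W G r p, InS r p b s ∧ s ≠ w
    · obtain ⟨s, hs, hT, hsw⟩ := hex
      have := low_lt B hT hx
      exact ⟨s, ⟨hs, hsw⟩, by omega⟩
    · push Not at hex
      obtain ⟨s, hs, hT⟩ := hgood b hb
      have hsw := hex s hs hT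
      subst hsw
      -- `s = w`
      by_cases hw' : min (G.dist w' (p b)) (G.dist w' b) ≠ G.dist w' x
      · exact ⟨w', ⟨N_W' hN, (N_ne hN).symm⟩, hw'⟩
      · push Not at hw'
        refine ⟨s0, ⟨h0W, h0w⟩, ?_⟩
        have hsb : ¬ InS r p b s0 := fun h => h0w (hex s0 h0W h)
        obtain ⟨u, v, hadj, hu, hv, huv⟩ := entrance B.conn (InS r p b) _ s0 s rfl hsb hT
        have e1 := InS_dist B hT
        have e2 : G.dist w' b ≤ G.dist w' s + G.dist s b := B.conn.dist_triangle
        have e3 : G.dist w' s = 1 := dist_eq_one_iff_adj.mpr hN.1.symm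
        have e4 : G.dist s0 w' ≤ G.dist s0 x + G.dist x w' := B.conn.dist_triangle
        have e5 : G.dist x w' = G.dist w' x := dist_comm
        rcases cross B hadj hu hv with ⟨rfl, rfl⟩ | h
        · have e6 : G.dist v s = G.dist s v := dist_comm
          omega
        · have hvs := hex v (N_W' h) hv
          subst hvs
          have := M v u w' (N_symm h) hN
          subst this
          omega
  refine ⟨K0, P1, ?_, Q3, ?_, ?_⟩
  · intro a b h hd
    by_cases hb : b = w
    · subst hb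
      have := M b a w' (N_symm h) hN
      subst this
      exact ⟨s0, ⟨h0W, h0w⟩, h0⟩
    · refine ⟨b, ⟨N_W' h, hb⟩, ?_⟩
      have h1 := hself b
      have := pos_dist B (N_ne h).symm
      omega
  · intro x y hxy hd
    obtain ⟨s, hs, h⟩ := sep2 B hgood hmax hxy hd
    exact ⟨s, hs, Jd_vv hd h⟩
  · refine ee_of B M K0 ?_ Q3 ?_ ?_
    · intro a b b' h hd hb'
      refine ⟨N_W h, ?_⟩
      rintro rfl
      have := hmax b'
      omega
    · intro a b h hd
      refine ⟨a, ⟨N_W h, ?_⟩, ?_⟩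
      · rintro rfl
        have := hmax b
        omega
      · have h1 := hself a
        have h2 := pos_dist B h.2.2.2.symm
        have h3 := pos_dist B (N_ne h)
        omega
    · intro b b' hb hb' hbb hd
      obtain ⟨s, hs, h⟩ := sep2 B hgood hmax hbb hd
      exact ⟨s, hs, Jd_ee B hb hb' hd h⟩

/-- the exceptional pair in the vertical case. -/
theorem exc (B : Tree G r dep p)
    (M : ∀ s z z', N G r p s z → N G r p s z' → z = z')
    {w w' : V} (hN : N G r p w w') (hmax : ∀ v, dep v ≤ dep w) (hdw : dep w' + 1 = dep w)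
    {s : V} (h0W : s ∈ W G r p) (h0w : s ≠ w) (h0w' : s ≠ w')
    (h0 : G.dist s (p w) ≠ G.dist s w') {x y : V} (hx : x ≠ r) (hy : y ≠ r)
    (hd : dep x = dep y)
    (hox : Only G r p x w) (hoy : Only G r p y w') :
    G.dist s x ≠ G.dist s y ∧
    min (G.dist s (p x)) (G.dist s x) ≠ min (G.dist s (p y)) (G.dist s y) := by
  have hself : ∀ x : V, G.dist x x = 0 := fun x => dist_self
  have hwr := w_ne_root B hN hmax
  have hpw := B.p_adj w hwr
  have hsx : ¬ InS r p x s := fun h => h0w (hox.2 s h0W h)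
  have hsy : ¬ InS r p y s := fun h => h0w' (hoy.2 s h0W h)
  have hdy := InS_dep B hoy.1
  have hxw : x ≠ w := by
    rintro rfl
    omega
  have hxp : InS r p x (p w) := (B.InT_parent hox.1 (by simpa using hxw.symm)).1
  have entx : ∀ t, InS r p x t → G.dist s t = G.dist s (p x) + 1 + G.dist x t ∨
      G.dist s t = G.dist s w' + 1 + G.dist w t := by
    intro t ht
    obtain ⟨u, v, hadj, hu, hv, huv⟩ := entrance B.conn (InS r p x) _ s t rfl hsx ht
    rcases cross B hadj hu hv with ⟨rfl, rfl⟩ | h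
    · left; omega
    · right
      have h1 := hox.2 v (N_W' h) hv
      subst h1
      have := M v u w' (N_symm h) hN
      subst this
      omega
  have enty : ∀ t, InS r p y t → G.dist s t = G.dist s (p y) + 1 + G.dist y t ∨
      G.dist s t = G.dist s w + 1 + G.dist w' t := by
    intro t ht
    obtain ⟨u, v, hadj, hu, hv, huv⟩ := entrance B.conn (InS r p y) _ s t rfl hsy ht
    rcases cross B hadj hu hv with ⟨rfl, rfl⟩ | h
    · left; omega
    · right
      have h1 := hoy.2 v (N_W' h) hv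
      subst h1
      have := M v u w (N_symm h) (N_symm hN)
      subst this
      omega
  have a1 := entx x (InS_self x)
  have a2 := entx (p w) hxp
  have a3 := entx w hox.1
  have b1 := enty y (InS_self y)
  have b2 := enty w' hoy.1
  have c1 := hself x
  have c2 := hself y
  have c3 := hself w
  have c4 := hself w'
  have d1 := InS_dist B hox.1
  have d2 := InS_dist B hxp
  have d3 := InS_dist B hoy.1
  have f1 : G.dist x w = G.dist w x := dist_comm
  have f2 : G.dist x (p w) = G.dist (p w) x := dist_comm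
  have f3 : G.dist y w' = G.dist w' y := dist_comm
  have f4 : G.dist w (p w) = 1 := dist_eq_one_iff_adj.mpr hpw.1
  have f5 : G.dist w w' = 1 := dist_eq_one_iff_adj.mpr hN.1
  have gx := B.p_adj x hx
  have gy := B.p_adj y hy
  have g1 : G.dist x (p x) = 1 := dist_eq_one_iff_adj.mpr gx.1
  have g2 : G.dist y (p y) = 1 := dist_eq_one_iff_adj.mpr gy.1
  have t1 : G.dist s x ≤ G.dist s (p x) + G.dist (p x) x := B.conn.dist_triangle
  have t2 : G.dist s (p x) ≤ G.dist s x + G.dist x (p x) := B.conn.dist_triangle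
  have t3 : G.dist s y ≤ G.dist s (p y) + G.dist (p y) y := B.conn.dist_triangle
  have t4 : G.dist s (p y) ≤ G.dist s y + G.dist y (p y) := B.conn.dist_triangle
  have t5 : G.dist (p x) x = G.dist x (p x) := dist_comm
  have t6 : G.dist (p y) y = G.dist y (p y) := dist_comm
  have t7 : G.dist s (p w) ≤ G.dist s x + G.dist x (p w) := B.conn.dist_triangle
  have t8 : G.dist s w' ≤ G.dist s y + G.dist y w' := B.conn.dist_triangle
  have t9 : G.dist s w ≤ G.dist s w' + G.dist w' w := B.conn.dist_triangle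
  have t10 : G.dist s w' ≤ G.dist s w + G.dist w w' := B.conn.dist_triangle
  have t11 : G.dist w' w = G.dist w w' := dist_comm
  have t12 : G.dist s w ≤ G.dist s (p w) + G.dist (p w) w := B.conn.dist_triangle
  have t13 : G.dist s (p w) ≤ G.dist s w + G.dist w (p w) := B.conn.dist_triangle
  have t14 : G.dist (p w) w = G.dist w (p w) := dist_comm
  have t15 : G.dist s w ≤ G.dist s x + G.dist x w := B.conn.dist_triangle
  constructor
  · rcases a1 with a1 | a1 <;> rcases a2 with a2 | a2 <;> rcases a3 with a3 | a3 <;>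
    rcases b1 with b1 | b1 <;> rcases b2 with b2 | b2 <;> omega
  · rcases a1 with a1 | a1 <;> rcases a2 with a2 | a2 <;> rcases a3 with a3 | a3 <;>
    rcases b1 with b1 | b1 <;> rcases b2 with b2 | b2 <;> omega

/-- the vertical case. -/
theorem good1 (B : Tree G r dep p) (hgood : ∀ v, v ≠ r → ∃ s ∈ W G r p, InS r p v s)
    (M : ∀ s z z', N G r p s z → N G r p s z' → z = z')
    {w w' : V} (hN : N G r p w w') (hmax : ∀ v, dep v ≤ dep w) (hdw : dep w' + 1 = dep w)
    {s0 : V} (h0W : s0 ∈ W G r p) (h0w : s0 ≠ w) (h0w' : s0 ≠ w')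
    (h0 : G.dist s0 (p w) ≠ G.dist s0 w') :
    Good G r dep p (fun s => s ∈ W G r p ∧ s ≠ w') := by
  have hself : ∀ x : V, G.dist x x = 0 := fun x => dist_self
  have hW : w ∈ W G r p ∧ w ≠ w' := ⟨N_W hN, N_ne hN⟩
  have K0 : ∀ a b, N G r p a b → (a ∈ W G r p ∧ a ≠ w') ∨ (b ∈ W G r p ∧ b ≠ w') := by
    intro a b h
    by_cases ha : a = w'
    · right
      exact ⟨N_W' h, fun hb => N_ne h (ha.trans hb.symm)⟩
    · exact Or.inl ⟨N_W h, ha⟩
  have Q3 : ∀ a b, N G r p a b → dep b = dep a + 1 → b ∈ W G r p ∧ b ≠ w' := by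
    intro a b h hd
    refine ⟨N_W' h, ?_⟩
    rintro rfl
    have := M b a w (N_symm h) (N_symm hN)
    subst this
    omega
  have hne : ∀ a b, N G r p a b → dep a = dep b → a ≠ w' := by
    rintro a b h hd rfl
    have := M a b w h (N_symm hN)
    subst this
    omega
  refine ⟨K0, ?_, ?_, Q3, ?_, ?_⟩
  · intro b x hb hx
    obtain ⟨s, hs, hT⟩ := hgood b hb
    by_cases hsw : s = w'
    · subst hsw
      refine ⟨w, hW, ?_⟩
      have e1 := InS_dist B hT
      have e2 : G.dist w b ≤ G.dist w s + G.dist s b := B.conn.dist_triangle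
      have e3 : G.dist w s = 1 := dist_eq_one_iff_adj.mpr hN.1
      have e4 := B.dep_lip w x
      omega
    · have := low_lt B hT hx
      exact ⟨s, ⟨hs, hsw⟩, by omega⟩
  · intro a b h hd
    refine ⟨b, ⟨N_W' h, hne b a (N_symm h) hd.symm⟩, ?_⟩
    have h1 := hself b
    have := pos_dist B (N_ne h).symm
    omega
  · intro x y hxy hd
    have hx := ne_root B hxy hd
    have hy := ne_root B hxy.symm hd.symm
    rcases sep1 B hgood M hN hmax hdw hxy hd with ⟨s, hs, h⟩ | ⟨h1, h2⟩ | ⟨h1, h2⟩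
    · exact ⟨s, hs, Jd_vv hd h⟩
    · exact ⟨s0, ⟨h0W, h0w'⟩, (exc B M hN hmax hdw h0W h0w h0w' h0 hx hy hd h1 h2).1⟩
    · exact ⟨s0, ⟨h0W, h0w'⟩,
        (exc B M hN hmax hdw h0W h0w h0w' h0 hy hx hd.symm h1 h2).1.symm⟩
  · refine ee_of B M K0 ?_ Q3 ?_ ?_
    · intro a b b' h hd hb'
      exact ⟨N_W h, hne a b h hd⟩
    · intro a b h hd
      by_cases ha : a = w'
      · subst ha
        have := M a b w h (N_symm hN)
        subst this
        refine ⟨s0, ⟨h0W, h0w'⟩, ?_⟩
        have e1 := dist_w B M hN hmax h0w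
        have e2 : G.dist s0 b ≤ G.dist s0 a + G.dist a b := B.conn.dist_triangle
        have e3 : G.dist a b = 1 := dist_eq_one_iff_adj.mpr hN.1.symm
        have e4 : G.dist s0 b ≤ G.dist s0 (p b) + G.dist (p b) b := B.conn.dist_triangle
        have e5 : G.dist (p b) b = 1 :=
          dist_eq_one_iff_adj.mpr (B.p_adj b (w_ne_root B hN hmax)).1.symm
        omega
      · refine ⟨a, ⟨N_W h, ha⟩, ?_⟩
        have h1 := hself a
        have h2 := pos_dist B h.2.2.2.symm
        have h3 := pos_dist B (N_ne h)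
        omega
    · intro b b' hb hb' hbb hd
      rcases sep1 B hgood M hN hmax hdw hbb hd with ⟨s, hs, h⟩ | ⟨h1, h2⟩ | ⟨h1, h2⟩
      · exact ⟨s, hs, Jd_ee B hb hb' hd h⟩
      · exact ⟨s0, ⟨h0W, h0w'⟩, (exc B M hN hmax hdw h0W h0w h0w' h0 hb hb' hd h1 h2).2⟩
      · exact ⟨s0, ⟨h0W, h0w'⟩,
          (exc B M hN hmax hdw h0W h0w h0w' h0 hb' hb hd.symm h1 h2).2.symm⟩

end Pool.Agent.H288R2.Mixed
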