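import Pool.Agent.H288R2.Mixed5

set_option autoImplicit false

namespace Pool.Agent.H288R2.Mixed

open SimpleGraph Pool.Agent.Helper431

variable {V : Type*} {G : SimpleGraph V} {r : V} {dep : V → ℕ} {p : V → V}

theorem card_NE_eq [Fintype V] [DecidableEq V] [DecidableRel G.Adj] (B : Tree G r dep p) :
    (NE G ({r} : Set V) p).card + Fintype.card V = G.edgeFinset.card + 1 := by
  classical
  let T : Finset (Sym2 V) := (Finset.univ.erase r).image (fun v => s(v, p v))
  have hnotR : ∀ {v : V}, v ∈ Finset.univ.erase r → v ∉ ({r} : Set V) := by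
    intro v hv
    simpa using hv
  have hTcard : T.card = Fintype.card V - 1 := by
    rw [Finset.card_image_of_injOn, Finset.card_erase_of_mem (Finset.mem_univ r),
      Finset.card_univ]
    intro v hv w hw h
    have hv' := B.p_adj v (hnotR hv)
    have hw' := B.p_adj w (hnotR hw)
    simp only [Sym2.eq_iff] at h
    rcases h with h | ⟨h1, h2⟩
    · exact h.1
    · rw [← h1] at hw'
      rw [h2] at hv'
      omega
  have hNT : Disjoint (NE G ({r} : Set V) p) T := by
    rw [Finset.disjoint_left]
    intro e he he'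
    rw [mem_NE] at he
    obtain ⟨u, v, rfl, h⟩ := he
    simp only [T, Finset.mem_image, Sym2.eq_iff] at he'
    obtain ⟨w, hw, (⟨h1, h2⟩ | ⟨h1, h2⟩)⟩ := he'
    · subst h1; exact h.2.2.1 h2
    · subst h1; exact h.2.2.2 h2
  have hU : G.edgeFinset = NE G ({r} : Set V) p ∪ T := by
    ext e
    induction e with
    | _ a b =>
      rw [mem_edgeFinset, mem_edgeSet, Finset.mem_union, mem_NE]
      constructor
      · intro hab
        by_cases h1 : p a = b
        · right
          have har : a ≠ r := by
            rintro rfl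
            rw [B.p_root a rfl] at h1
            exact hab.ne h1
          exact Finset.mem_image.mpr ⟨a, by simp [har], by rw [h1]⟩
        · by_cases h2 : p b = a
          · right
            have hbr : b ≠ r := by
              rintro rfl
              rw [B.p_root b rfl] at h2
              exact hab.ne h2.symm
            exact Finset.mem_image.mpr ⟨b, by simp [hbr], by rw [h2, Sym2.eq_swap]⟩
          · left
            refine ⟨a, b, rfl, hab, ?_, h1, h2⟩
            rintro ⟨h3, h4⟩
            rw [Set.mem_singleton_iff] at h3 h4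
            exact hab.ne (h3.trans h4.symm)
      · rintro (⟨u, v, h, hN⟩ | h)
        · have := hN.1
          rw [← mem_edgeSet, ← h, mem_edgeSet] at this
          exact this
        · simp only [T, Finset.mem_image] at h
          obtain ⟨v, hv, h⟩ := h
          have := (B.p_adj v (hnotR hv)).1
          rw [← mem_edgeSet, h, mem_edgeSet] at this
          exact this
  rw [hU, Finset.card_union_of_disjoint hNT, hTcard]
  have : 0 < Fintype.card V := Fintype.card_pos_iff.mpr ⟨r⟩
  omega

/-- degrees are at least two. -/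
theorem degree_ge [Fintype V] [DecidableEq V] [DecidableRel G.Adj] (hc : G.Connected)
    (hcut : NoCut G) (h3 : 3 ≤ Fintype.card V) (v : V) : 2 ≤ G.degree v := by
  have hnt : Nontrivial V := Fintype.one_lt_card_iff_nontrivial.mp (by omega)
  have hpos : 0 < G.degree v := hc.preconnected.degree_pos_of_nontrivial v
  by_contra hlt
  have h1 : G.degree v = 1 := by omega
  rw [← card_neighborFinset_eq_degree, Finset.card_eq_one] at h1
  obtain ⟨u, hu⟩ := h1
  have huv : G.Adj v u := by
    rw [← mem_neighborFinset, hu]; simp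
  have hall := hcut u (fun a => a = v) huv.ne' ⟨v, rfl⟩ (by
    intro a b hab _ hb
    subst hb
    have : a ∈ G.neighborFinset b := by rw [mem_neighborFinset]; exact hab.symm
    rw [hu] at this
    simpa using this)
  have : Fintype.card V ≤ 2 := by
    rw [← Finset.card_univ]
    have hsub : (Finset.univ : Finset V) ⊆ {u, v} := by
      intro t _
      by_cases ht : t = u
      · simp [ht]
      · simp [hall t ht]
    exact (Finset.card_le_card hsub).trans Finset.card_le_two
  omega

/-- The main combinatorial statement. -/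
theorem main [Fintype V] [DecidableEq V] [DecidableRel G.Adj] (hc : G.Connected)
    (hcut : NoCut G) (h3 : 3 ≤ Fintype.card V) (hdeg3 : ∃ v, 3 ≤ G.degree v) :
    ∃ S : Finset V, S.card + 2 * Fintype.card V ≤ 2 * G.edgeFinset.card + 2 ∧
      (∀ x y, x ≠ y → ∃ s ∈ S, G.dist s x ≠ G.dist s y) ∧
      (∀ x a b, G.Adj a b → ∃ s ∈ S, G.dist s x ≠ min (G.dist s a) (G.dist s b)) ∧
      (∀ a b c d, G.Adj a b → G.Adj c d → ¬ (a = c ∧ b = d) → ¬ (a = d ∧ b = c) →
        ∃ s ∈ S, min (G.dist s a) (G.dist s b) ≠ min (G.dist s c) (G.dist s d)) := by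
  classical
  obtain ⟨r⟩ := hc.nonempty
  obtain ⟨dep, p, B⟩ := exists_BFS hc (Set.singleton_nonempty r)
  have hdeg := degree_ge hc hcut h3
  have hgood : ∀ v, v ≠ r → ∃ s ∈ W G r p, InS r p v s := fun v hv =>
    B.exists_W_below hdeg v hv
  have hcount := card_NE_eq B
  -- from a good set to the conclusion
  have fin : ∀ (K : V → Prop) (S : Finset V), Good G r dep p K →
      (∀ s, s ∈ S ↔ K s ∨ s = r) → S.card + 2 * Fintype.card V ≤ 2 * G.edgeFinset.card + 2 →
      ∃ S : Finset V, S.card + 2 * Fintype.card V ≤ 2 * G.edgeFinset.card + 2 ∧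
      (∀ x y, x ≠ y → ∃ s ∈ S, G.dist s x ≠ G.dist s y) ∧
      (∀ x a b, G.Adj a b → ∃ s ∈ S, G.dist s x ≠ min (G.dist s a) (G.dist s b)) ∧
      (∀ a b c d, G.Adj a b → G.Adj c d → ¬ (a = c ∧ b = d) → ¬ (a = d ∧ b = c) →
        ∃ s ∈ S, min (G.dist s a) (G.dist s b) ≠ min (G.dist s c) (G.dist s d)) := by
    intro K S H hS hcard
    refine ⟨S, hcard, ?_, ?_, ?_⟩
    · intro x y hxy
      obtain ⟨s, hs, h⟩ := H.vv B hxy
      exact ⟨s, (hS s).mpr hs, h⟩
    · intro x a b hab
      obtain ⟨s, hs, h⟩ := H.ve B (x := x) hab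
      exact ⟨s, (hS s).mpr hs, h⟩
    · intro a b c d hab hcd h1 h2
      obtain ⟨s, hs, h⟩ := H.ee B hab hcd h1 h2
      exact ⟨s, (hS s).mpr hs, h⟩
  by_cases M : ∀ s z z', N G r p s z → N G r p s z' → z = z'
  · -- the non-tree edges form a matching
    have hWle := card_Wf_le (G := G) (p := p) ({r} : Set V)
    obtain ⟨w, -, hmax'⟩ := Set.exists_max_image (Set.univ : Set V) dep (Set.toFinite _)
      ⟨r, Set.mem_univ r⟩
    have hmax : ∀ v, dep v ≤ dep w := fun v => hmax' v (Set.mem_univ v)
    have hwr : w ≠ r := by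
      rintro rfl
      have h0 := B.dep_root (v := w) rfl
      have hnt : Nontrivial V := Fintype.one_lt_card_iff_nontrivial.mp (by omega)
      obtain ⟨v, hv⟩ := exists_ne w
      have h1 := B.dep_pos (v := v) (by simpa using hv)
      have h2 := hmax v
      omega
    have hwW : w ∈ W G r p := by
      obtain ⟨s, hs, hT⟩ := hgood w hwr
      have e1 := InS_dist B hT
      have e2 := hmax s
      have e3 : G.dist s w = 0 := by omega
      rw [← (B.conn.dist_eq_zero_iff).mp e3]
      exact hs
    obtain ⟨w', hN⟩ := hwW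
    have hNE2 : 2 ≤ (NE G ({r} : Set V) p).card := by
      have h1 := G.sum_degrees_eq_twice_card_edges
      obtain ⟨v, hv⟩ := hdeg3
      have h2 : ∑ u : V, 2 < ∑ u : V, G.degree u :=
        Finset.sum_lt_sum (fun u _ => hdeg u) ⟨v, Finset.mem_univ v, by omega⟩
      rw [Finset.sum_const, smul_eq_mul, Finset.card_univ] at h2
      omega
    have h2 : ∃ s s', N G r p s s' ∧ ¬ (s = w ∧ s' = w') ∧ ¬ (s = w' ∧ s' = w) := by
      obtain ⟨e, he, hne⟩ := Finset.exists_mem_ne (by omega : 1 < (NE G ({r} : Set V) p).card)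
        s(w, w')
      rw [mem_NE] at he
      obtain ⟨s, s', rfl, h⟩ := he
      refine ⟨s, s', h, ?_, ?_⟩
      · rintro ⟨rfl, rfl⟩; exact hne rfl
      · rintro ⟨rfl, rfl⟩; exact hne Sym2.eq_swap
    -- cardinality after dropping a member
    have hcard : ∀ δ ∈ W G r p, (insert r ((Wf G ({r} : Set V) p).erase δ)).card +
        2 * Fintype.card V ≤ 2 * G.edgeFinset.card + 2 := by
      intro δ hδ
      have h1 := Finset.card_insert_le r ((Wf G ({r} : Set V) p).erase δ)
      have h2 := Finset.card_erase_of_mem (mem_Wf.mpr hδ)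
      have h3 : 0 < (Wf G ({r} : Set V) p).card := Finset.card_pos.mpr ⟨δ, mem_Wf.mpr hδ⟩
      omega
    have hmem : ∀ δ s, s ∈ insert r ((Wf G ({r} : Set V) p).erase δ) ↔
        (s ∈ W G r p ∧ s ≠ δ) ∨ s = r := by
      intro δ s
      rw [Finset.mem_insert, Finset.mem_erase, mem_Wf]
      tauto
    have hd1 := B.dep_adj hN.1
    have hd2 := hmax w'
    rcases Nat.eq_or_lt_of_le hd2 with hd | hd
    · obtain ⟨s0, h0W, h0w, h0w', h0⟩ := claimH B hcut M hN hd h2
      rcases Nat.lt_or_gt_of_ne h0 with h0 | h0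
      · exact fin _ _ (good2 B hgood M hN hmax hd h0W h0w h0) (hmem w) (hcard w (N_W hN))
      · exact fin _ _ (good2 B hgood M (N_symm hN) (fun v => by rw [hd]; exact hmax v) hd.symm
          h0W h0w' h0) (hmem w') (hcard w' (N_W' hN))
    · have hd' : dep w' + 1 = dep w := by omega
      obtain ⟨s0, h0W, h0w, h0w', h0⟩ := claimN B hcut M hN hmax hd' h2
      exact fin _ _ (good1 B hgood M hN hmax hd' h0W h0w h0w' h0) (hmem w') (hcard w' (N_W' hN))
  · push Not at M
    obtain ⟨s, z, z', h1, h2, hne⟩ := M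
    have hlt := card_Wf_lt (G := G) (p := p) ({r} : Set V) hne h1 h2
    refine fin (fun s => s ∈ W G r p) (insert r (Wf G ({r} : Set V) p)) (good_W B hgood) ?_ ?_
    · intro s
      rw [Finset.mem_insert, mem_Wf]
      tauto
    · have := Finset.card_insert_le r (Wf G ({r} : Set V) p)
      omega

end Pool.Agent.H288R2.Mixed
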