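import Mathlib

set_option autoImplicit false

namespace Pool.Agent.H288R2

open Finset

section Wirtinger

variable {N : ℕ} [NeZero N]

/-- Parseval identity for the discrete Fourier transform on `ZMod N`. -/
theorem parseval (Φ Ψ : ZMod N → ℂ) :
    ∑ k, (starRingEnd ℂ) (ZMod.dft Φ k) * ZMod.dft Ψ k =
      N * ∑ j, (starRingEnd ℂ) (Φ j) * Ψ j := by
  have h1 : ∀ k : ZMod N, (starRingEnd ℂ) (ZMod.dft Φ k) * ZMod.dft Ψ k =
      ∑ j, ∑ l, (starRingEnd ℂ) (Φ j) * Ψ l * ZMod.stdAddChar (k * (j - l)) := by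
    intro k
    rw [ZMod.dft_apply, ZMod.dft_apply, map_sum, Finset.sum_mul_sum]
    refine Finset.sum_congr rfl fun j _ => Finset.sum_congr rfl fun l _ => ?_
    rw [smul_eq_mul, smul_eq_mul, map_mul, ← AddChar.map_neg_eq_conj, neg_neg]
    have : k * (j - l) = j * k + -(l * k) := by ring
    rw [this, AddChar.map_add_eq_mul]
    ring
  simp_rw [h1]
  rw [Finset.sum_comm, Finset.mul_sum]
  refine Finset.sum_congr rfl fun j _ => ?_
  rw [Finset.sum_comm]
  have h2 : ∀ l : ZMod N, ∑ k : ZMod N,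
      (starRingEnd ℂ) (Φ j) * Ψ l * ZMod.stdAddChar (k * (j - l)) =
      if l = j then (N : ℂ) * ((starRingEnd ℂ) (Φ j) * Ψ l) else 0 := by
    intro l
    rw [← Finset.mul_sum, AddChar.sum_mulShift _ (ZMod.isPrimitive_stdAddChar N), ZMod.card]
    by_cases hlj : l = j
    · simp [hlj]; ring
    · have : j - l ≠ 0 := sub_ne_zero.mpr (Ne.symm hlj)
      simp [hlj, this]
  simp_rw [h2]
  simp

theorem dft_shift (Φ : ZMod N → ℂ) (k : ZMod N) :
    ZMod.dft (fun j => Φ (j + 1)) k = ZMod.stdAddChar k * ZMod.dft Φ k := by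
  rw [ZMod.dft_apply, ZMod.dft_apply, Finset.mul_sum]
  rw [← Equiv.sum_comp (Equiv.addRight (1 : ZMod N))
    (fun j => ZMod.stdAddChar k * (ZMod.stdAddChar (-(j * k)) • Φ j))]
  refine Finset.sum_congr rfl fun j _ => ?_
  simp only [Equiv.coe_addRight, smul_eq_mul]
  rw [← mul_assoc, ← AddChar.map_add_eq_mul]
  congr 2
  ring

theorem re_stdAddChar_le (k : ZMod N) (hk : k ≠ 0) :
    (ZMod.stdAddChar k : ℂ).re ≤ Real.cos (2 * Real.pi / N) := by
  have hN : 0 < N := Nat.pos_of_ne_zero (NeZero.ne N)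
  have hNr : (0 : ℝ) < N := by exact_mod_cast hN
  have hval : ((k.val : ℤ) : ZMod N) = k := by simp
  have hlt : k.val < N := ZMod.val_lt k
  have hpos : 1 ≤ k.val := by
    rcases Nat.eq_zero_or_pos k.val with h | h
    · exact absurd ((ZMod.val_eq_zero k).mp h) hk
    · exact h
  have h1 : (ZMod.stdAddChar k : ℂ).re = Real.cos (2 * Real.pi * k.val / N) := by
    rw [← hval, ZMod.stdAddChar_coe]
    have : (2 * (Real.pi : ℂ) * Complex.I * ((k.val : ℤ) : ℂ) / (N : ℂ)) =
        ((2 * Real.pi * k.val / N : ℝ) : ℂ) * Complex.I := by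
      push_cast; ring
    rw [this, Complex.exp_ofReal_mul_I_re]
    simp
  rw [h1]
  have hpi := Real.pi_pos
  by_cases hc : 2 * k.val ≤ N
  · apply Real.cos_le_cos_of_nonneg_of_le_pi
    · positivity
    · rw [div_le_iff₀ hNr]
      have : (2 * (k.val : ℝ)) ≤ N := by exact_mod_cast hc
      nlinarith
    · apply div_le_div_of_nonneg_right _ hNr.le
      have : (1 : ℝ) ≤ k.val := by exact_mod_cast hpos
      nlinarith
  · push Not at hc
    have h2 : Real.cos (2 * Real.pi * k.val / N) =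
        Real.cos (2 * Real.pi * (N - k.val) / N) := by
      rw [← Real.cos_two_pi_sub]
      congr 1
      field_simp
    rw [h2]
    apply Real.cos_le_cos_of_nonneg_of_le_pi
    · positivity
    · rw [div_le_iff₀ hNr]
      have : (N : ℝ) < (2 * (k.val : ℝ)) := by exact_mod_cast hc
      nlinarith
    · apply div_le_div_of_nonneg_right _ hNr.le
      have : (k.val : ℝ) + 1 ≤ N := by exact_mod_cast hlt
      nlinarith

/-- Discrete Wirtinger inequality. -/
theorem wirtinger (F : ZMod N → ℝ) (h0 : ∑ j, F j = 0) :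
    ∑ j, F j * F (j + 1) ≤ Real.cos (2 * Real.pi / N) * ∑ j, F j ^ 2 := by
  have hN : 0 < N := Nat.pos_of_ne_zero (NeZero.ne N)
  have hNr : (0 : ℝ) < N := by exact_mod_cast hN
  set Φ : ZMod N → ℂ := fun j => (F j : ℂ) with hΦ
  have hp1 := parseval Φ Φ
  have hp2 := parseval Φ (fun j => Φ (j + 1))
  simp_rw [dft_shift] at hp2
  have e1 : ∑ k, Complex.normSq (ZMod.dft Φ k) = N * ∑ j, F j ^ 2 := by
    have := congrArg Complex.re hp1
    rw [Complex.re_sum] at this
    have h3 : ∀ k, ((starRingEnd ℂ) (ZMod.dft Φ k) * ZMod.dft Φ k).re =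
        Complex.normSq (ZMod.dft Φ k) := by
      intro k
      rw [mul_comm, Complex.mul_conj]; simp
    simp_rw [h3] at this
    rw [this]
    have h4 : ∀ j, (starRingEnd ℂ) (Φ j) * Φ j = ((F j ^ 2 : ℝ) : ℂ) := by
      intro j; simp [hΦ, Complex.conj_ofReal]; ring
    simp_rw [h4]
    rw [← Complex.ofReal_sum, ← Complex.ofReal_natCast, ← Complex.ofReal_mul, Complex.ofReal_re]
  have e2 : ∑ k, (ZMod.stdAddChar k : ℂ).re * Complex.normSq (ZMod.dft Φ k) =
      N * ∑ j, F j * F (j + 1) := by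
    have := congrArg Complex.re hp2
    rw [Complex.re_sum] at this
    have h3 : ∀ k, ((starRingEnd ℂ) (ZMod.dft Φ k) * (ZMod.stdAddChar k * ZMod.dft Φ k)).re =
        (ZMod.stdAddChar k : ℂ).re * Complex.normSq (ZMod.dft Φ k) := by
      intro k
      have : (starRingEnd ℂ) (ZMod.dft Φ k) * (ZMod.stdAddChar k * ZMod.dft Φ k) =
        ZMod.stdAddChar k * (Complex.normSq (ZMod.dft Φ k) : ℂ) := by
        rw [← Complex.mul_conj]; ring
      rw [this, Complex.re_mul_ofReal]
    simp_rw [h3] at this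
    rw [this]
    have h4 : ∀ j, (starRingEnd ℂ) (Φ j) * Φ (j + 1) = ((F j * F (j + 1) : ℝ) : ℂ) := by
      intro j; simp [hΦ, Complex.conj_ofReal]
    simp_rw [h4]
    rw [← Complex.ofReal_sum, ← Complex.ofReal_natCast, ← Complex.ofReal_mul, Complex.ofReal_re]
  have e0 : ZMod.dft Φ 0 = 0 := by
    rw [ZMod.dft_apply_zero]
    simp only [hΦ]
    rw [← Complex.ofReal_sum, h0]; simp
  have key : ∑ k, (ZMod.stdAddChar k : ℂ).re * Complex.normSq (ZMod.dft Φ k) ≤
      ∑ k, Real.cos (2 * Real.pi / N) * Complex.normSq (ZMod.dft Φ k) := by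
    refine Finset.sum_le_sum fun k _ => ?_
    by_cases hk : k = 0
    · rw [hk, e0]; simp
    · exact mul_le_mul_of_nonneg_right (re_stdAddChar_le k hk) (Complex.normSq_nonneg _)
  rw [e2, ← Finset.mul_sum, e1] at key
  have : (N : ℝ) * ∑ j, F j * F (j + 1) ≤ N * (Real.cos (2 * Real.pi / N) * ∑ j, F j ^ 2) := by
    linarith
  exact le_of_mul_le_mul_left this hNr

end Wirtinger

end Pool.Agent.H288R2
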